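import Pool.Agent.helper33.RF.SpecL

set_option autoImplicit false

namespace Pool.Agent.RF

open NumberField

theorem LAO (hYAG : YAG_stmt) (hYAN : YAN_stmt) : LAO_stmt := by
  intro D₀ F _ _ C f g hD hD0 S hS o ho z hz l hl hlf
  by_cases hlg : l ∣ g
  · exact hYAG D₀ F C f g hD hD0 S hS o ho z hz l hl hlg
  · exact hYAN D₀ F C f g hD hD0 S hS o ho z hz l hl hlf hlg

end Pool.Agent.RF
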